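import Pool.Agent.H924.Daff.QNon2
import Pool.Agent.H924.Daff.QSmooth
import Pool.Agent.H924.Daff.QProj
import Pool.Agent.H924.Daff.QFS

/-!
# A `D`-affine, globally F-split variety whose Frobenius pushforwards have self-extensions

Question Q2 of MP_5ac764_ag asks whether, for a smooth projective globally F-split variety `X` over a
perfect field of characteristic `p`, the variety `X` fails to be `D`-affine as soon as some
`F^e_* O_X` is not tilting. The answer is negative: over every perfect field of characteristic `2`,
the quadric threefold `X : z² = x₀x₁ + x₂x₃` in `ℙ⁴` is smooth, projective, globally F-split and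
`D`-affine, but the group `H¹(X, D_X^(e))`, which is isomorphic to `Ext¹(F^e_* O_X, F^e_* O_X)`, is
nonzero for all `e ≥ 2`.

The definitions used in the statement are those of `Pool.Graph.R_seed8.H835R3.Stmt`
(`diffOp`, the sheaf `D_X^(e)` of endomorphisms of `O_X` linear over `p^e`-th powers,
`GloballyFSplit`, `IsProjectiveOver`) and of `Pool.Agent.H924.Daff.Stmt` (`IsDAffine`).
-/

set_option autoImplicit false

open CategoryTheory AlgebraicGeometry

namespace Pool.Agent.Results.MP_5ac764_ag.QuadricThreefoldCharTwo

open Pool.Agent.H835R3.Stmt Pool.Agent.H924.Daff.Stmt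

/-- Over every perfect field `k` of characteristic `2` there is an integral scheme, smooth of
relative dimension three and projective over `k`, globally F-split and `D`-affine, such that
`H¹(X, D_X^(e)) ≠ 0` for all `e ≥ 2`. -/
theorem result (k : Type) [Field k] [CharP k 2] [PerfectRing k 2] :
    ∃ (X : Scheme.{0}) (f : X ⟶ Spec (.of k)), IsIntegral X ∧ SmoothOfRelativeDimension 3 f ∧
      IsProjectiveOver f ∧ GloballyFSplit X 2 ∧ IsDAffine X 2 ∧
      ∀ e : ℕ, 2 ≤ e → ¬ Subsingleton (Sheaf.H (diffOp X 2 e) 1) := by
  refine ⟨Pool.Agent.H924.Daff.XX k, toSpecK (Pool.Agent.H924.Daff.gr k), inferInstance,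
    Pool.Agent.H924.Daff.smooth_XX k, Pool.Agent.H924.Daff.projective_XX k,
    Pool.Agent.H924.Daff.globallyFSplit_XX k, Pool.Agent.H924.Daff.isDAffine_XX k, ?_⟩
  intro e he
  obtain ⟨n, rfl⟩ : ∃ n, e = n + 2 := ⟨e - 2, by omega⟩
  exact Pool.Agent.H924.Daff.H_one_ne n

end Pool.Agent.Results.MP_5ac764_ag.QuadricThreefoldCharTwo
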